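import Pool.Agent.helper70.BND.SpecH

/-!
# Row BSS of project bnd, block H
-/

set_option autoImplicit false

open scoped Topology
open Finset

namespace Pool.Agent.BND.EX

theorem BSS_mem {H : Type} [AddCommGroup H] (P : H → Prop) (g : H) (H' : AddSubgroup H) (Rk : Prop)
    (σ : ℕ → Sta H) (M : ℕ → ℕ → ℕ → ℕ) (w : ℕ → ℕ → ℝ → List (ℕ × ℝ)) (S : ℕ → Set ℝ)
    (hσ : ∀ m, IsSta P g H' m (σ m)) (hs : ∀ m, IsStep Rk m (σ m) (σ (m + 1)) (M m) (w m) (S m))
    (k d : ℕ) : BS.lp ⟨fun m => (σ m).A.l, w, S⟩ k d ∈ (σ (k + d)).FL := by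
  induction d with
  | zero => exact (hσ k).emb
  | succ d ih =>
    have h1 := (hs (k + d)).fl
    rw [show k + (d + 1) = k + d + 1 by ring, h1]
    exact List.mem_cons_of_mem _ (List.mem_map.2 ⟨_, ih, rfl⟩)

theorem BSS (hMKL : MKL_stmt) (hEMC : EMC_stmt) : BSS_stmt := by
  intro H _ P g H' Rk σ M w S hσ hs
  have hlv : ∀ m, IsLv (σ m).A.l := fun m => (hMKL (σ m).A (hσ m).gl).1
  have hcmp : ∀ m, Cmp (σ m).A.l (emb (σ m).A.l) := fun m => hEMC _ (hlv m)
  exact
    { lv := hlv
      big := fun m => (hMKL (σ m).A (hσ m).gl).2.2.1 (m + 1) (hσ m).big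
      htw := fun m => (hs m).htw
      lett := fun m => (hs m).lett
      vtx := fun m => (hs m).vtx
      cont := fun m => (hs m).cont _ (hcmp m)
      ends := fun m => (hs m).ends _ (hcmp m)
      bot := fun m => (hs m).bot
      top := fun m => (hs m).top
      dns := by
        intro m e' s' he' hs' e t he ht
        obtain ⟨t', ht', hm, hd⟩ := (hs m).dns e' s' he' hs' e t he ht
        refine ⟨t', ht', hm, fun k d hkd i hi c => ?_⟩
        subst hkd
        exact hd _ (BSS_mem P g H' Rk σ M w S hσ hs k d) i hi c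
      cov := fun m => (hs m).cov
      sfin := fun m => (hs m).sfin
      onev := fun m => (hs m).onev
      oneb := fun m => (hs m).oneb
      cnt := fun m => (hs m).cnt
      st1 := fun m => (hs m).st1
      st2 := fun m => (hs m).st2 }

end Pool.Agent.BND.EX
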