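import Pool.Agent.helper70.BND.SpecH

/-!
# Row CMN of project bnd, block H
-/

set_option autoImplicit false

open scoped Topology
open Finset

namespace Pool.Agent.BND.EX

theorem CMN_fw (h h' : ℕ → ℕ) (Φ : ℕ → ℝ → ℕ → Am) (w : ℕ → ℝ → List (ℕ × ℝ)) (u : List ℕ)
    (hu : ∀ v ∈ u, hw h (w v 0) = h' v) (i : ℕ) :
    fw h Φ (u.flatMap fun v => w v 0) i = fw h' (fun e s i => fw h Φ (w e s) i) (vw u) i := by
  induction u generalizing i with
  | nil => rfl
  | cons v u ih =>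
    have hv := hu v (by simp)
    rw [List.flatMap_cons, vw_cons]
    simp only [fw]
    split_ifs with h1
    · exact fw_append_left h Φ _ _ i (by rw [hv]; exact h1)
    · rw [fw_append_right h Φ _ _ i (by rw [hv]; omega), hv]
      exact ih (fun x hx => hu x (by simp [hx])) _

theorem CMN_fin (h : ℕ → ℕ) (N : ℕ) (Φ : ℕ → ℝ → ℕ → Am) (c : ℕ × ℕ)
    (hΦ : ∀ e s i, e < N → s ∈ U → i < h e → Φ e s i c = 0) (w : List (ℕ × ℝ))
    (hw' : ∀ a ∈ w, a.1 < N ∧ a.2 ∈ U) (i : ℕ) : fw h Φ w i c = 0 := by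
  induction w generalizing i with
  | nil => rfl
  | cons a w ih =>
    simp only [fw]
    split_ifs with h1
    · have ha := hw' a (by simp)
      exact hΦ _ _ _ ha.1 ha.2 h1
    · exact ih (fun x hx => hw' x (by simp [hx])) _

theorem CMN (hFWA : FWA_stmt) (hFWB : FWB_stmt) (hMKL : MKL_stmt) : CMN_stmt := by
  intro m A A' M J Rk w hN hW Φ hΦ
  obtain ⟨hht, hlett, hvtx, -⟩ := hFWA m A A' M J Rk w hN hW
  obtain ⟨hcts, hends⟩ := hFWB m A A' M J Rk w hN hW Φ hΦ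
  obtain ⟨hlv, -⟩ := hMKL A' hN.gl'
  have h0 : (0 : ℝ) ∈ U := ⟨le_refl _, zero_le_one⟩
  have hword : ∀ e (b : Bool), e < A'.l.N → ∀ v ∈ A'.l.W e b, hw A.l.h (w v 0) = A'.l.h v := by
    intro e b he v hv
    exact hht v 0 (lt_of_lt_of_le (hlv.mem e he b v hv) hlv.nN) h0
  refine ⟨hcts, ?_, ?_, ?_, ?_⟩
  · intro e s i he
    rw [hvtx e s he]
  · intro e i he hi
    have h1 := hends e false i he hi
    rw [CMN_fw A.l.h A'.l.h Φ w (A'.l.W e false) (hword e false he) i] at h1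
    simpa using h1
  · intro e i he hi
    have h1 := hends e true i he hi
    rw [CMN_fw A.l.h A'.l.h Φ w (A'.l.W e true) (hword e true he) i] at h1
    simpa using h1
  · obtain ⟨F, hF⟩ := hΦ.fin
    refine ⟨F, fun e s i c he hs hi hc => ?_⟩
    exact CMN_fin A.l.h A.l.N Φ c (fun e s i h1 h2 h3 => hF e s i c h1 h2 h3 hc) (w e s) (hlett e s he hs) i

end Pool.Agent.BND.EX
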