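import Pool.Agent.helper70.BND.SpecH

/-!
# Row FWC of project bnd, block H
-/

set_option autoImplicit false

open scoped Topology
open Finset

namespace Pool.Agent.BND.EX

theorem FWC (hMKL : MKL_stmt) : FWC_stmt := by
  intro m A A' M J Rk w hN hW e t he ht
  obtain ⟨-, -, -, hcb, -⟩ := hMKL A' hN.gl'
  obtain ⟨h1, h2, -⟩ := hcb 0 0 hN.gl'.n0 hN.gl'.n0
  have h3 : A'.cb 0 0 < A'.l.N := lt_of_lt_of_le h2 (Nat.le_add_right _ _)
  obtain ⟨d, hd, -⟩ := hW.bd (A'.cb 0 0) h1 h3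
  rw [if_pos h2] at hd
  obtain ⟨s, hs, hm⟩ := hd.vis (e, t) ⟨he, ht⟩
  exact ⟨A'.cb 0 0, s, h3, hs, hm⟩

end Pool.Agent.BND.EX
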